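import Pool.Agent.Helper34.S7.GABms
import Pool.Agent.Helper61.AZ.ThmB
import Pool.Agent.Helper24.S7.MON

/-!
# AU, block U4a: the theorem for the germs of a sequence of points of bounded degree, with forms which move with the
point, a list of subspaces over the slow germs (`ZL`), and the constant `1 / cnr n r` (`thmB_z` over the slow germs)
-/

set_option autoImplicit false

namespace Pool.Agent.SQ

open NumberField Filter Module MvPolynomial
open Pool.Agent.Helper64.Vojta (Pl nv sn above)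
open Pool.Agent.V2
open Pool.Agent.Chart (fld dg crd val hgt lam)

universe u

section

variable {k : Type u} [Field k] [NumberField k] {G : Type} [Group G] [Fintype G] {D : SqG k G} (F : GFG D)

private theorem rp_zero61 : ∀ᶠ a in (D.U : Filter ℕ), F.rp 0 a = 0 := by
  filter_upwards [F.rp_alg 0] with a ha
  rw [map_zero, map_zero] at ha
  exact ha

private theorem rp_sum61 {ι : Type} (s : Finset ι) (f : ι → F.K) :
    ∀ᶠ a in (D.U : Filter ℕ), F.rp (∑ j ∈ s, f j) a = ∑ j ∈ s, F.rp (f j) a := by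
  classical
  induction s using Finset.induction_on with
  | empty =>
    filter_upwards [rp_zero61 F] with a ha
    rw [Finset.sum_empty, Finset.sum_empty, ha]
  | insert i s hi ih =>
    filter_upwards [ih, F.rp_add (f i) (∑ j ∈ s, f j)] with a h1 h2
    rw [Finset.sum_insert hi, Finset.sum_insert hi, h2, h1]

variable {n : ℕ} (x : ∀ a, Fin (n + 1) → D.L a) (hx : Ptg D x)
  (ξ : Fin (n + 1) → F.K) (hξ : ∀ j, ∀ᶠ n in (D.U : Filter ℕ), F.rp (ξ j) n = x n j)

private theorem fixms61 {H : Subgroup G} (hξ : ∀ j, ∀ᶠ n in (D.U : Filter ℕ), F.rp (ξ j) n = x n j)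
    (hxH : ∀ n, ∀ h ∈ H, ∀ j, D.s n h (x n j) = x n j) :
    ∀ h ∈ H, ∀ z ∈ Submodule.span (slk F) (Set.range ξ), ss F h z = z := by
  intro h hh z hz
  induction hz using Submodule.span_induction with
  | mem z hz =>
    obtain ⟨j, rfl⟩ := hz
    refine F.rp_inj _ _ ?_
    filter_upwards [hξ j, F.rp_s h (ξ j)] with n h1 h2
    show F.rp (F.s h (ξ j)) n = F.rp (ξ j) n
    rw [h2, h1, hxH n h hh j]
  | zero => exact map_zero _
  | add a b _ _ ha hb => rw [map_add, ha, hb]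
  | smul r a _ ha => rw [map_smul, ha]

private theorem cgms61 {H : Subgroup G} (hxH : ∀ n, ∀ h ∈ H, ∀ j, D.s n h (x n j) = x n j) (v : Pl k) (g h : G)
    (hh : h ∈ H) : cg D x v (g * h) = cg D x v g := by
  have h1 : ∀ n, (fun j => D.s n (g * h) (x n j)) = fun j => D.s n g (x n j) := by
    intro n
    funext j
    rw [map_mul]
    show D.s n g (D.s n h (x n j)) = _
    rw [hxH n h hh j]
  unfold cg
  simp only [h1]

private theorem prod_bot61 {k K : Type u} [Field k] [Field K] [Algebra k K] [Fintype (G ⧸ (⊥ : Subgroup G))]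
    (V : G → Submodule k K) : ∏ g, V g = ∏ q : G ⧸ (⊥ : Subgroup G), V q.out := by
  symm
  refine Fintype.prod_bijective (fun q : G ⧸ (⊥ : Subgroup G) => q.out) ⟨?_, ?_⟩ _ _ fun _ => rfl
  · intro q q' h
    rw [← QuotientGroup.out_eq' q, ← QuotientGroup.out_eq' q']
    exact congrArg _ h
  · intro g
    refine ⟨(g : G ⧸ (⊥ : Subgroup G)), ?_⟩
    have h1 : ((g : G ⧸ (⊥ : Subgroup G)).out : G ⧸ (⊥ : Subgroup G)) = g := QuotientGroup.out_eq' _
    rw [QuotientGroup.eq, Subgroup.mem_bot] at h1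
    exact (inv_mul_eq_one.1 h1)

variable {x}

include hx hξ

theorem germsB_ms {q : ℕ} (l : Fin q → Fin (n + 1) → slk F) (lr : ℕ → Fin q → Fin (n + 1) → k)
    (hlr : ∀ i j, ∀ᶠ a in (D.U : Filter ℕ), F.rp (l i j : F.K) a = algebraMap k (D.L a) (lr a i j))
    (hl : ∀ i, l i ∉ kerS F ξ) {A FF : Finset (Submodule (slk F) (Fin (n + 1) → slk F))} (hz : ZL l A FF)
    (hA : ∀ E ∈ A, ¬ E ≤ kerS F ξ) (P : Finset (Pl k))
    (Hs : Subgroup G) (hH : ∀ a, ∀ h ∈ Hs, ∀ j, D.s a h (x a j) = x a j)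
    {r' r : ℕ} (hr' : 0 < r') (hr : 2 ≤ r) (hrr : r' ≤ r) (ρ : Fin r' → G) (hρ : ∀ g, ∃! j, (ρ j)⁻¹ * g ∈ Hs)
    {ε : ℝ} (hε : 0 < ε) :
    ∀ᶠ a in (D.U : Filter ℕ), ∑ v ∈ P, ∑ g, ∑ i, (Real.log (mxn (D.N a v) fun j => D.s a g (x a j)) -
      Real.log (D.N a v (D.s a g (lvg (lr a i) (x a))))) ≤ (1 / cnr n r + ε) * D.H a := by
  have : Fintype (G ⧸ (⊥ : Subgroup G)) := Fintype.ofFinite _
  have hxB : ∀ n, ∀ h ∈ (⊥ : Subgroup G), ∀ j, D.s n h (x n j) = x n j := fun n h hh j => by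
    rw [Subgroup.mem_bot.1 hh, map_one]
    rfl
  set Θ : (Fin (n + 1) → slk F) →ₗ[slk F] F.K := Fintype.linearCombination (slk F) ξ with hΘdef
  have hΘ : ∀ m, Θ m = ∑ j, m j • ξ j := fun m => Fintype.linearCombination_apply (slk F) ξ m
  have hrange : LinearMap.range Θ = Submodule.span (slk F) (Set.range ξ) :=
    Fintype.range_linearCombination (slk F) ξ
  have hker : LinearMap.ker Θ = kerS F ξ := rfl
  have hfix := fixms61 F x ξ hξ hH
  have hprod := omgs_prod F x hx ξ hξ hxB P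
  have hsub := sub_ts F x hx ξ hξ hxB P
  have hnn := omgs_nonneg F x hx ξ hξ
  have hat := omgs_attained F x hx ξ hξ
  set V := Submodule.span (slk F) (Set.range ξ) with hV
  have hfd : FiniteDimensional (slk F) V := FiniteDimensional.span_of_finite (slk F) (Set.finite_range ξ)
  have hΘV : ∀ m, Θ m ∈ V := fun m => by
    rw [← hrange]
    exact LinearMap.mem_range_self Θ m
  have hVΘ : ∀ z ∈ V, ∃ m, Θ m = z := fun z hz => by
    rw [← hrange] at hz
    exact hz
  have hΘ0 : Θ ≠ 0 := by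
    intro h0
    obtain ⟨v, g⟩ : Nonempty (Pl k × G) := ⟨(.inl Classical.ofNonempty, 1)⟩
    obtain ⟨z, h1, h2, -⟩ := hat v g
    obtain ⟨m, hm⟩ := hVΘ z h1
    rw [h0] at hm
    exact h2 hm.symm
  have hlΘ : ∀ i, Θ (l i) ≠ 0 := fun i h => hl i (hker ▸ LinearMap.mem_ker.2 h)
  have hAΘ : ∀ E ∈ A, ∃ m ∈ E, Θ m ≠ 0 := by
    intro E hE
    by_contra hcon
    push Not at hcon
    refine hA E hE fun m hm => ?_
    rw [← hker, LinearMap.mem_ker]
    exact hcon m hm
  have hr0 : 0 < r := lt_of_lt_of_le hr' hrr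
  have hpos : ∀ m, 0 < cnr m r := fun m => cnr_pos' hr0
  -- the constants
  let B : ℕ → ℝ := fun d => if d = 0 then 0 else 1 / cnr (d - 1) r
  have hBs : ∀ d, B (d + 1) = 1 / cnr d r := fun d => by
    simp only [B]
    rw [if_neg (Nat.succ_ne_zero d), Nat.add_sub_cancel]
  have hB1 : ∀ d D : ℕ, 1 ≤ d → d ≤ D → D ≤ n + 1 → B d * D ≤ B D * d := by
    intro d D' h1 h2 _
    obtain ⟨d', rfl⟩ : ∃ d', d = d' + 1 := ⟨d - 1, by omega⟩
    obtain ⟨e', rfl⟩ : ∃ e', D' = e' + 1 := ⟨D' - 1, by omega⟩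
    rw [hBs, hBs, one_div_mul_eq_div, one_div_mul_eq_div, div_le_div_iff₀ (hpos _) (hpos _)]
    have := cnr_anti (m := d') (n := e') hr0 (by omega)
    push_cast
    linarith
  have hB2 : ∀ p : ℕ, p ≤ n → B (n + 1 - p) + 2 * p ≤ B (n + 1) := by
    intro p hp
    rw [show n + 1 - p = (n - p) + 1 by omega, hBs, hBs]
    exact cnr_shift hp hr0 hr le_rfl
  have hB : ∀ E : Submodule (slk F) F.K, E ≠ ⊥ → E ≤ LinearMap.range Θ → ∃ C : ℝ, ∀ N : ℕ, 0 < N →
      ∑ i : P × G, (SN ((omg_RVs F (i.1 : Pl k)).comp (ss F i.2)) N (cg D x i.1 i.2) E : ℝ) ≤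
        N * B (finrank (slk F) E) + C := by
    intro E hE0 hEr
    rw [hrange] at hEr
    have hEf : FiniteDimensional (slk F) E := Submodule.finiteDimensional_of_le hEr
    have hEn : E ≤ V := hEr
    have h2 : 0 < finrank (slk F) E := Module.finrank_pos_iff.2 ((Submodule.nontrivial_iff_ne_bot).2 hE0)
    obtain ⟨d, hd⟩ : ∃ d, finrank (slk F) E = d + 1 := ⟨finrank (slk F) E - 1, by omega⟩
    obtain ⟨C, hC⟩ := abs_a (ss F) (P := P) (fun v => omg F v) (fun v => omg_RVs F v) (fun v g => cg D x v g) E hd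
      (fun v g z hz hz0 => hnn v g z (hEn hz) hz0)
      (fun m E' hE' hEs N z hz hzE => by
        have h1 := hsub m E' (by
          rw [← prod_bot61 (fun g => V.map (ss F g).toLinearMap)]
          exact hE'.trans (pow_le_pow_left' (Finset.prod_le_prod' fun g _ => Submodule.map_mono hEn) m)) hEs N z hz hzE
        simpa using h1)
      Hs (fun h hh z hz => hfix h hh z (hEn hz)) (fun v g h hh => cgms61 x hH v g h hh) hr' ρ hρ
    refine ⟨C, fun N hN => ?_⟩
    have h3 := hC N hN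
    rw [Fintype.sum_prod_type, hd, hBs]
    refine h3.trans (add_le_add ?_ le_rfl)
    rw [div_eq_mul_one_div]
    refine mul_le_mul_of_nonneg_left ?_ (Nat.cast_nonneg N)
    exact one_div_le_one_div_of_le (hpos d) (cnr_anti_r hr' hrr)
  have key := thmB_z hz (fun (i : P × G) (z : F.K) => omg F i.1 (ss F i.2 z))
    (fun i => (omg_RVs F (i.1 : Pl k)).comp (ss F i.2))
    (fun i => cg D x i.1 i.2) Θ hΘ0 hlΘ hAΘ
    (fun i m hm => hnn i.1 i.2 (Θ m) (hΘV m) hm)
    (fun i => by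
      obtain ⟨z, h1, h2, h3⟩ := hat i.1 i.2
      obtain ⟨m, rfl⟩ := hVΘ z h1
      exact ⟨m, h2, h3⟩)
    (fun m hm => by
      have h1 := hprod (Θ m) (hΘV m) hm
      rw [Fintype.sum_prod_type, Finset.sum_coe_sort P (fun v => ∑ g, (omg F v (ss F g (Θ m)) + cg D x v g))]
      exact h1)
    B hB1 hB2 hB
  have key' : ∑ v ∈ P, ∑ g, ∑ i, (omg F v (F.s g (Θ (l i))) + cg D x v g) ≤ 1 / cnr n r := by
    rw [Fintype.sum_prod_type, hBs] at key
    rw [← Finset.sum_coe_sort P (fun v => ∑ g, ∑ i, (omg F v (F.s g (Θ (l i))) + cg D x v g))]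
    exact key
  have hrp : ∀ i, ∀ᶠ a in (D.U : Filter ℕ), F.rp (Θ (l i)) a = lvg (lr a i) (x a) := by
    intro i
    have h1 : ∀ᶠ a in (D.U : Filter ℕ), ∀ j, F.rp (l i j • ξ j) a = algebraMap k (D.L a) (lr a i j) * x a j := by
      rw [eventually_all]
      intro j
      filter_upwards [hlr i j, hξ j, F.rp_mul (l i j : F.K) (ξ j)] with a h2 h3 h4
      rw [← h2, ← h3, ← h4]
      rfl
    filter_upwards [h1, rp_sum61 F Finset.univ fun j => l i j • ξ j] with a h2 h3
    rw [hΘ, h3]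
    unfold lvg
    exact Finset.sum_congr rfl fun j _ => h2 j
  have hlim : ∀ (v : Pl k) (g : G) (i : Fin q), Tendsto (fun a => (Real.log (mxn (D.N a v) fun j => D.s a g (x a j)) -
      Real.log (D.N a v (D.s a g (lvg (lr a i) (x a))))) / D.H a) (D.U : Filter ℕ)
      (nhds (omg F v (F.s g (Θ (l i))) + cg D x v g)) := by
    intro v g i
    have h0 : F.s g (Θ (l i)) ≠ 0 := by
      rw [Ne, EmbeddingLike.map_eq_zero_iff]
      exact hlΘ i
    have h1 := (omg_tendsto F v _ h0).add (cg_tendsto x hx v g)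
    refine h1.congr' ?_
    filter_upwards [hrp i, F.rp_s g (Θ (l i))] with a h3 h4
    rw [h4, h3]
    ring
  have hsum : Tendsto (fun a => ∑ v ∈ P, ∑ g, ∑ i, (Real.log (mxn (D.N a v) fun j => D.s a g (x a j)) -
      Real.log (D.N a v (D.s a g (lvg (lr a i) (x a))))) / D.H a) (D.U : Filter ℕ)
      (nhds (∑ v ∈ P, ∑ g, ∑ i, (omg F v (F.s g (Θ (l i))) + cg D x v g))) :=
    tendsto_finsetSum _ fun v _ => tendsto_finsetSum _ fun g _ => tendsto_finsetSum _ fun i _ => hlim v g i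
  have hlt : ∑ v ∈ P, ∑ g, ∑ i, (omg F v (F.s g (Θ (l i))) + cg D x v g) < 1 / cnr n r + ε := by linarith
  filter_upwards [hsum.eventually (gt_mem_nhds hlt), D.H1.eventually (eventually_gt_atTop 0)] with a h1 h2
  have h3 : ∑ v ∈ P, ∑ g, ∑ i, (Real.log (mxn (D.N a v) fun j => D.s a g (x a j)) -
      Real.log (D.N a v (D.s a g (lvg (lr a i) (x a))))) / D.H a = (∑ v ∈ P, ∑ g, ∑ i, (Real.log (mxn (D.N a v) fun j =>
      D.s a g (x a j)) - Real.log (D.N a v (D.s a g (lvg (lr a i) (x a)))))) / D.H a := by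
    simp only [Finset.sum_div]
  rw [h3, div_lt_iff₀ h2] at h1
  exact h1.le

end

end Pool.Agent.SQ
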